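import Pool.Agent.Helper96K9.MGN.K

set_option autoImplicit false

namespace Pool.Agent.Results.MP_a0ad85_lc.DiamondCounterexample

/-- The total variation of `μ` is at most `K`: for every finite partition of the unit, that is,
every finite set of pairwise disjoint elements with supremum `⊤`, the sum of `|μ x|` over its
members is at most `K`. -/
def VariationLE {B : Type} [BooleanAlgebra B] (μ : B → ℝ) (K : ℝ) : Prop :=
  ∀ s : Finset B, (∀ x ∈ s, ∀ y ∈ s, x ≠ y → Disjoint x y) → s.sup id = ⊤ →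
    ∑ x ∈ s, |μ x| ≤ K

/-- Measures: finitely additive real valued functions of bounded variation. -/
def IsMeasure {B : Type} [BooleanAlgebra B] (μ : B → ℝ) : Prop :=
  (∀ x y, Disjoint x y → μ (x ⊔ y) = μ x + μ y) ∧ ∃ K : ℝ, VariationLE μ K

/-- The Nikodym property: every pointwise bounded sequence of measures is bounded in norm. -/
def NikodymProperty (B : Type) [BooleanAlgebra B] : Prop :=
  ∀ μ : ℕ → B → ℝ, (∀ n, IsMeasure (μ n)) → (∀ x, ∃ K : ℝ, ∀ n, |μ n x| ≤ K) →
    ∃ K : ℝ, ∀ n, VariationLE (μ n) K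

/-- The strong Nikodym property: for every increasing sequence of subsets `D n` with union `B`
there is `n₀` such that every sequence of measures that is pointwise bounded on `D n₀` is bounded
in norm. -/
def StrongNikodymProperty (B : Type) [BooleanAlgebra B] : Prop :=
  ∀ D : ℕ → Set B, Monotone D → (⋃ n, D n) = Set.univ →
    ∃ n₀, ∀ μ : ℕ → B → ℝ, (∀ n, IsMeasure (μ n)) → (∀ x ∈ D n₀, ∃ K : ℝ, ∀ n, |μ n x| ≤ K) →
      ∃ K : ℝ, ∀ n, VariationLE (μ n) K

/-- `B` is minimally generated: there are an ordinal `δ` and a chain of subalgebras `F α`,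
`α < δ`, with `F 0 = {⊥, ⊤}`, unions at limits, `F (α + 1)` a minimal extension of `F α` whenever
`α + 1 < δ`, and union `B`. -/
def MinimallyGenerated (B : Type) [BooleanAlgebra B] : Prop :=
  ∃ (δ : Ordinal.{0}) (F : Ordinal.{0} → BooleanSubalgebra B),
    0 < δ ∧ (F 0 : Set B) = {⊥, ⊤} ∧
    (∀ l < δ, Order.IsSuccLimit l → ∀ x, x ∈ F l ↔ ∃ α < l, x ∈ F α) ∧
    (∀ α, Order.succ α < δ → F α < F (Order.succ α) ∧
      ¬ ∃ D : BooleanSubalgebra B, F α < D ∧ D < F (Order.succ α)) ∧
    (∀ α β, α ≤ β → β < δ → F α ≤ F β) ∧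
    ∀ x, ∃ α < δ, x ∈ F α

/-- `C` is a closed unbounded subset of `ω₁`. -/
def IsClub (C : Set Ordinal.{0}) : Prop :=
  C ⊆ Set.Iio (Ordinal.omega 1) ∧
  (∀ β < Ordinal.omega 1, ∃ γ ∈ C, β ≤ γ) ∧
  ∀ γ < Ordinal.omega 1, 0 < γ → (∀ β < γ, ∃ δ ∈ C, β < δ ∧ δ < γ) → γ ∈ C

/-- Jensen's diamond principle: there are sets `A α ⊆ α`, `α < ω₁`, such that for every
`S ⊆ ω₁` the set of all `α < ω₁` with `S ∩ α = A α` is stationary, that is, meets every club. -/
def Diamond : Prop :=
  ∃ A : Ordinal.{0} → Set Ordinal.{0}, (∀ α < Ordinal.omega 1, A α ⊆ Set.Iio α) ∧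
    ∀ S ⊆ Set.Iio (Ordinal.omega 1), ∀ C, IsClub C → ∃ α ∈ C, S ∩ Set.Iio α = A α

/-- Under the diamond principle some infinite minimally generated Boolean algebra has the Nikodym
property but not the strong Nikodym property. -/
theorem result (h : Diamond) : ∃ (B : Type) (_ : BooleanAlgebra B), Infinite B ∧
    MinimallyGenerated B ∧ NikodymProperty B ∧ ¬ StrongNikodymProperty B :=
  Pool.Agent.Helper96K9.MGN.main h

end Pool.Agent.Results.MP_a0ad85_lc.DiamondCounterexample
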